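import Pool.Agent.N954.P1B.J0
import Pool.Agent.N954.P1B.J1
import Pool.Agent.N954.P1B.J2
import Pool.Agent.N954.P1B.J3
import Pool.Agent.N954.P1B.J4
import Pool.Agent.N954.P1B.J5
import Pool.Agent.N954.P1B.J6
import Pool.Agent.N954.P1B.J7
import Pool.Agent.N954.P1B.J8
import Pool.Agent.N954.P1B.J9
import Pool.Agent.N954.P1B.J10
import Pool.Agent.N954.P1B.J11
import Pool.Agent.N954.P1B.J12
import Pool.Agent.N954.P1B.J13
import Pool.Agent.N954.P1B.J14
import Pool.Agent.N954.P1B.J15
import Pool.Agent.N954.P1B.J16
import Pool.Agent.N954.P1B.J17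
import Pool.Agent.N954.P1B.J18
import Pool.Agent.N954.P1B.J19
import Pool.Agent.N954.P1B.J20
import Pool.Agent.N954.P1B.J21
import Pool.Agent.N954.P1B.J22
import Pool.Agent.N954.P1B.J23
import Pool.Agent.N954.P1B.J24
import Pool.Agent.N954.P1B.J25
import Pool.Agent.N954.P1B.J26
import Pool.Agent.N954.P1B.J27
import Pool.Agent.N954.P1B.J28
import Pool.Agent.N954.P1B.J29
import Pool.Agent.N954.P1B.J30
import Pool.Agent.N954.P1B.J31
import Pool.Agent.N954.P1B.J32

/-!
Project P1 (helper979): all numerical conditions for the data B (helper954).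
-/

set_option autoImplicit false

namespace Pool.Agent.N954.P1B.All

open Pool.Agent.N979.P1

theorem main (h : B.S_BND) (J : Fin 33) : B.S_CK J := by
  fin_cases J
  · exact J0.main h
  · exact J1.main h
  · exact J2.main h
  · exact J3.main h
  · exact J4.main h
  · exact J5.main h
  · exact J6.main h
  · exact J7.main h
  · exact J8.main h
  · exact J9.main h
  · exact J10.main h
  · exact J11.main h
  · exact J12.main h
  · exact J13.main h
  · exact J14.main h
  · exact J15.main h
  · exact J16.main h
  · exact J17.main h
  · exact J18.main h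
  · exact J19.main h
  · exact J20.main h
  · exact J21.main h
  · exact J22.main h
  · exact J23.main h
  · exact J24.main h
  · exact J25.main h
  · exact J26.main h
  · exact J27.main h
  · exact J28.main h
  · exact J29.main h
  · exact J30.main h
  · exact J31.main h
  · exact J32.main h

end Pool.Agent.N954.P1B.All
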