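import Pool.Agent.N954.P1.Gen
import Pool.Agent.N979.P1.DatB

/-!
Project P1 (helper979): the tables of the sectors (helper954).
-/

set_option autoImplicit false
set_option maxRecDepth 100000

namespace Pool.Agent.N954.P1B

open Pool.Agent.N979.P1 Pool.Agent.N954.P1

def sT : Fin 28 → ℚ := ![
    447500000/6250000032041, 195468741994538250000/390625129808813155206409,
    848749063013950000/625002532553261704801, 66249414389750000/25000617534453374809,
    27248884243300000/6250630635478183769, 65590909808000/10003201928016449,
    143945316000/16013450307361, 4875612148000/400779179388289, 38675765075000/2510188500149369,
    3735964725000/193823026558213, 9454813228000/405723210480809, 7040625750/256159120741,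
    2144371250/65065357541, 38734360000/1065883152881, 11174790500/275628373529,
    3239978000/72327456329, 14448947500/309544293889, 63643844000/1357370581561,
    17368214500/384341644961, 1127678750/28408694669, 10575700/355540841, 27826950/1920144109,
    -79803400/11537578169, -1668150/49989109, -1798200/27122521, -138159050/1382750429,
    -53725490/403042901, -610/3821]

def kT : Fin 28 → ℚ := ![
    32041/6250000032041, 125803687500000000/390625129808813155206409,
    2123572500000000/625002532553261704801, 431287500000000/25000617534453374809,
    368420000000000/6250630635478183769, 1603264000000/10003201928016449,
    5760000000/16013450307361, 298656000000/400779179388289, 3444875000000/2510188500149369,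
    464625000000/193823026558213, 1591744000000/405723210480809, 1563937500/256159120741,
    619062500/65065357541, 14320000000/1065883152881, 5228750000/275628373529,
    1918000000/72327456329, 10871250000/309544293889, 61560000000/1357370581561,
    22226750000/384341644961, 2024687500/28408694669, 30260000/355540841, 188572500/1920144109,
    1264960000/11537578169, 5589375/49989109, 3020625/27122521, 132612500/1382750429,
    27661900/403042901, 100/3821]

theorem hsT : ∀ i : Fin 28, sgQ B.datQ.t i = sT i := by decide +kernel

theorem hkT : ∀ i : Fin 28, kpQ B.datQ.t i = kT i := by decide +kernel

end Pool.Agent.N954.P1B
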